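import Pool.Agent.Q87.Leonard.Generate

/-!
# Generating sets of primitive idempotents in a Leonard system
-/

namespace Pool.Agent.Results.MP_9ad7dc_al.Generate

open Pool.Agent.Q87.Leonard

/-- For every Leonard system and every `0 ≤ r ≤ d` the primitive idempotents
`E*_0, ..., E*_r, E_r, ..., E_d` generate the full matrix algebra. -/
theorem result (K : Type*) [Field K] (d : ℕ)
    (A B : Matrix (Fin (d + 1)) (Fin (d + 1)) K)
    (E F : Fin (d + 1) → Matrix (Fin (d + 1)) (Fin (d + 1)) K)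
    (h : IsLeonardSystem A B E F) (r : Fin (d + 1)) :
    Algebra.adjoin K ({M | ∃ i, i ≤ r ∧ M = F i} ∪ {M | ∃ j, r ≤ j ∧ M = E j}) = ⊤ := by
  classical
  obtain ⟨θ, b, hθ, hbA, hbE⟩ := h.primA.exists_basis
  obtain ⟨θ', c, hθ', hcB, hcF⟩ := h.primB.exists_basis
  have hD : Data (Matrix.toLin' A) (Matrix.toLin' B) b c := by
    refine ⟨⟨θ, hθ, fun i => by rw [Matrix.toLin'_apply]; exact hbA i⟩,
      ⟨θ', hθ', fun i => by rw [Matrix.toLin'_apply]; exact hcB i⟩, ?_, ?_, ?_, ?_⟩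
    · intro i j hij
      rw [Matrix.toLin'_apply]
      exact (mul_mul_eq_zero_iff c hcF i j).1 (h.farF i j hij)
    · intro i j hij h0
      rw [Matrix.toLin'_apply] at h0
      exact h.nearF i j hij ((mul_mul_eq_zero_iff c hcF i j).2 h0)
    · intro i j hij
      rw [Matrix.toLin'_apply]
      exact (mul_mul_eq_zero_iff b hbE i j).1 (h.farE i j hij)
    · intro i j hij h0
      rw [Matrix.toLin'_apply] at h0
      exact h.nearE i j hij ((mul_mul_eq_zero_iff b hbE i j).2 h0)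
  set T := Algebra.adjoin K ({M | ∃ i, i ≤ r ∧ M = F i} ∪ {M | ∃ j, r ≤ j ∧ M = E j}) with hT
  let φ : Matrix (Fin (d + 1)) (Fin (d + 1)) K →ₐ[K] Module.End K (Fin (d + 1) → K) :=
    (Matrix.toLinAlgEquiv' : Matrix (Fin (d + 1)) (Fin (d + 1)) K ≃ₐ[K] _).toAlgHom
  have hφ : ∀ M x, φ M x = M.mulVec x := fun M x => rfl
  have hF : ∀ i, i ≤ r → F i ∈ T := fun i hi =>
    Algebra.subset_adjoin (Or.inl ⟨i, hi, rfl⟩)
  have hE : ∀ j, r ≤ j → E j ∈ T := fun j hj =>
    Algebra.subset_adjoin (Or.inr ⟨j, hj, rfl⟩)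
  have htop : T.map φ = ⊤ := by
    refine eq_top_of_rank_one (T.map φ) ?_ (c.coord 0) (c 0) ?_ (c.ne_zero 0) ?_
    · intro W hW
      refine hD.irr r W ?_ ?_
      · intro i hi x hx
        have h1 := hW (φ (F i)) (Subalgebra.mem_map.2 ⟨F i, hF i hi, rfl⟩) x hx
        rwa [hφ, hcF] at h1
      · intro j hj x hx
        have h1 := hW (φ (E j)) (Subalgebra.mem_map.2 ⟨E j, hE j hj, rfl⟩) x hx
        rwa [hφ, hbE] at h1
    · intro h0
      have h1 : c.coord 0 (c 0) = 1 := by simp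
      rw [h0] at h1
      simp at h1
    · refine Subalgebra.mem_map.2 ⟨F 0, hF 0 (Fin.zero_le r), ?_⟩
      refine LinearMap.ext fun x => ?_
      change φ (F 0) x = _
      rw [hφ, hcF]
      simp
  rw [eq_top_iff]
  intro M _
  have h1 : φ M ∈ T.map φ := by rw [htop]; trivial
  obtain ⟨N, hN, hNM⟩ := Subalgebra.mem_map.1 h1
  have : N = M := Matrix.toLinAlgEquiv'.injective hNM
  rwa [← this]

end Pool.Agent.Results.MP_9ad7dc_al.Generate
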